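import Pool.Agent.TH505.OCDC.Decomp

set_option autoImplicit false

/-!
Arc sets that decompose into directed cycles.
-/

namespace Pool.Agent.J4H91.OC

open Finset Pool.Agent.TH505.OCDC

variable {V : Type} {G : SimpleGraph V}

/-- the arc set `A` is the disjoint union of directed cycles of `G` -/
def Dec (G : SimpleGraph V) (A : V → V → Prop) : Prop :=
  ∃ C : List (Σ v : V, G.Walk v v), (∀ c ∈ C, c.2.IsCycle) ∧ ∀ u v, tot C u v = ind (A u v)

lemma Dec.congr {A B : V → V → Prop} (h : Dec G A) (hAB : ∀ u v, A u v ↔ B u v) : Dec G B := by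
  have : A = B := by funext u v; exact propext (hAB u v)
  exact this ▸ h

lemma Dec.empty {A : V → V → Prop} (h : ∀ u v, ¬ A u v) : Dec G A :=
  ⟨[], by simp, fun u v => by rw [tot_nil, ind_neg (h u v)]⟩

lemma Dec.union {A B : V → V → Prop} (hA : Dec G A) (hB : Dec G B)
    (hd : ∀ u v, A u v → ¬ B u v) : Dec G (fun u v => A u v ∨ B u v) := by
  obtain ⟨C, hC1, hC2⟩ := hA
  obtain ⟨D, hD1, hD2⟩ := hB
  refine ⟨C ++ D, ?_, ?_⟩
  · intro c hc
    rw [List.mem_append] at hc
    rcases hc with hc | hc
    · exact hC1 c hc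
    · exact hD1 c hc
  · intro u v
    rw [tot_append, hC2, hD2]
    by_cases h1 : A u v
    · rw [ind_pos h1, ind_neg (hd u v h1), ind_pos (Or.inl h1)]
    · by_cases h2 : B u v
      · rw [ind_neg h1, ind_pos h2, ind_pos (Or.inr h2)]
      · rw [ind_neg h1, ind_neg h2, ind_neg (by tauto)]

lemma Dec.fsum {I : Type} (s : Finset I) (A : I → V → V → Prop)
    (h : ∀ i ∈ s, Dec G (A i)) (hd : ∀ i ∈ s, ∀ j ∈ s, ∀ u v, A i u v → A j u v → i = j) :
    Dec G (fun u v => ∃ i ∈ s, A i u v) := by
  classical
  induction s using Finset.induction_on with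
  | empty => exact Dec.empty (by simp)
  | insert a s ha ih =>
    have h1 := ih (fun i hi => h i (mem_insert_of_mem hi))
      (fun i hi j hj => hd i (mem_insert_of_mem hi) j (mem_insert_of_mem hj))
    refine ((h a (mem_insert_self _ _)).union h1 ?_).congr ?_
    · rintro u v h2 ⟨i, hi, h3⟩
      exact ha ((hd a (mem_insert_self _ _) i (mem_insert_of_mem hi) u v h2 h3) ▸ hi)
    · intro u v
      simp only [mem_insert]
      constructor
      · rintro (h2 | ⟨i, hi, h2⟩)
        · exact ⟨a, Or.inl rfl, h2⟩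
        · exact ⟨i, Or.inr hi, h2⟩
      · rintro ⟨i, rfl | hi, h2⟩
        · exact Or.inl h2
        · exact Or.inr ⟨i, hi, h2⟩

lemma Dec.classes {I : Type} [Finite I] (A : V → V → Prop) (κ : V → V → I)
    (h : ∀ i, Dec G (fun u v => A u v ∧ κ u v = i)) : Dec G A := by
  classical
  have : Fintype I := Fintype.ofFinite I
  refine (Dec.fsum (univ : Finset I) (fun i u v => A u v ∧ κ u v = i) (fun i _ => h i) ?_).congr ?_
  · rintro i _ j _ u v ⟨_, h1⟩ ⟨_, h2⟩
    exact h1.symm.trans h2
  · intro u v
    constructor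
    · rintro ⟨i, _, h1, _⟩; exact h1
    · intro h1; exact ⟨κ u v, mem_univ _, h1, rfl⟩

lemma Dec.balanced [Finite V] {A : V → V → Prop} (hadj : ∀ u v, A u v → G.Adj u v)
    (hopp : ∀ u v, A u v → ¬ A v u)
    (hbal : ∀ v, Set.ncard {w | A v w} = Set.ncard {w | A w v}) : Dec G A := by
  classical
  have : Fintype V := Fintype.ofFinite V
  have hind : ∀ p : V → Prop, ∑ w, ind (p w) = Set.ncard {w | p w} := by
    intro p
    rw [Set.ncard_eq_toFinset_card', Finset.card_eq_sum_ones, Set.toFinset_setOf,
      Finset.sum_filter]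
    apply Finset.sum_congr rfl
    intro w _
    by_cases h : p w
    · rw [ind_pos h, if_pos h]
    · rw [ind_neg h, if_neg h]
  obtain ⟨C, h1, h2⟩ := directed_decomp _ A rfl hadj hopp (fun v => by
    rw [hind, hind]; exact hbal v)
  exact ⟨C, h1, h2⟩

/-- If `N` maps the arcs of `A` that enter `v` injectively to arcs of `A` that leave `v`, and
preserves the class `κ`, and no two opposite arcs are in the same class, then `A` is a disjoint
union of directed cycles. -/
theorem Dec.next [Finite V] {I : Type} [Finite I] {A : V → V → Prop}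
    (hadj : ∀ u v, A u v → G.Adj u v) (N : V → V → V) (κ : V → V → I)
    (h1 : ∀ u v, A u v → A v (N u v))
    (h2 : ∀ u u' v, A u v → A u' v → N u v = N u' v → u = u')
    (h3 : ∀ u v, A u v → κ v (N u v) = κ u v)
    (h4 : ∀ u v, A u v → A v u → κ u v ≠ κ v u) : Dec G A := by
  classical
  have : Fintype V := Fintype.ofFinite V
  refine Dec.classes A κ (fun i => ?_)
  refine Dec.balanced (fun u v h => hadj u v h.1) ?_ ?_
  · rintro u v ⟨ha, hk⟩ ⟨ha', hk'⟩
    exact h4 u v ha ha' (hk.trans hk'.symm)
  · -- in-degree at most out-degree, and the totals agree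
    have hle : ∀ v, Set.ncard {w | A w v ∧ κ w v = i} ≤ Set.ncard {w | A v w ∧ κ v w = i} := by
      intro v
      refine Set.ncard_le_ncard_of_injOn (fun w => N w v) ?_ ?_ (Set.toFinite _)
      · rintro w ⟨ha, hk⟩
        exact ⟨h1 w v ha, (h3 w v ha).trans hk⟩
      · rintro w ⟨ha, _⟩ w' ⟨ha', _⟩ h
        exact h2 w w' v ha ha' h
    have hind : ∀ p : V → Prop, Set.ncard {w | p w} = ∑ w, (if p w then 1 else 0) := by
      intro p
      rw [Set.ncard_eq_toFinset_card', Finset.card_eq_sum_ones, Set.toFinset_setOf,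
        Finset.sum_filter]
    have htot : ∑ v, Set.ncard {w | A w v ∧ κ w v = i} = ∑ v, Set.ncard {w | A v w ∧ κ v w = i} := by
      simp only [hind]
      exact Finset.sum_comm
    intro v
    have := (Finset.sum_eq_sum_iff_of_le (fun v _ => hle v)).1 htot v (mem_univ v)
    exact this.symm

/-- Three disjoint perfect matchings, given by involutions. -/
theorem Dec.three [Finite V] (r : Fin 3 → V → V) (hinv : ∀ i v, r i (r i v) = v)
    (hadj : ∀ i v, G.Adj v (r i v)) (hne : ∀ i j v, i ≠ j → r i v ≠ r j v) :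
    Dec G (fun u v => ∃ i, v = r i u) := by
  classical
  have : Fintype V := Fintype.ofFinite V
  have hsym : ∀ i u v, v = r i u ↔ u = r i v := by
    intro i u v
    constructor
    · rintro rfl; rw [hinv]
    · rintro rfl; rw [hinv]
  have hsum : ∀ (i j : Fin 3), i ≠ j → ∀ v, ∑ w, ind (w = r i v ∨ w = r j v) = 2 := by
    intro i j hij v
    have h1 : ∀ w, ind (w = r i v ∨ w = r j v) =
        (if w = r i v then 1 else 0) + (if w = r j v then 1 else 0) := by
      intro w
      by_cases ha : w = r i v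
      · rw [ind_pos (Or.inl ha), if_pos ha, if_neg]
        intro hb; exact hne i j v hij (ha.symm.trans hb)
      · by_cases hb : w = r j v
        · rw [ind_pos (Or.inr hb), if_neg ha, if_pos hb]
        · rw [ind_neg (by tauto), if_neg ha, if_neg hb]
    rw [Finset.sum_congr rfl (fun w _ => h1 w), Finset.sum_add_distrib]
    simp
  have hor : ∀ (i j : Fin 3), i ≠ j → ∃ g : V → V → ℤ, (∀ u v, g v u = - g u v) ∧
      (∀ u v, (v = r i u ∨ v = r j u) → g u v = 1 ∨ g u v = -1) ∧
      (∀ u v, ¬ (v = r i u ∨ v = r j u) → g u v = 0) ∧ ∀ u, ∑ w, g u w = 0 := by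
    intro i j hij
    refine orient G _ (fun u v => v = r i u ∨ v = r j u) rfl ?_ ?_ ?_
    · rintro u v (rfl | rfl)
      · exact hadj i u
      · exact hadj j u
    · rintro u v (h | h)
      · exact Or.inl ((hsym i u v).1 h)
      · exact Or.inr ((hsym j u v).1 h)
    · intro v
      rw [hsum i j hij v]
      exact even_two
  obtain ⟨x, x1, x2, x3, x4⟩ := hor 1 2 (by decide)
  obtain ⟨y, y1, y2, y3, y4⟩ := hor 0 2 (by decide)
  obtain ⟨z, z1, z2, z3, z4⟩ := hor 0 1 (by decide)
  -- the four classes
  have key : ∀ u v : V, (v = r 0 u ∧ x u v = 0 ∧ (y u v = 1 ∨ y u v = -1) ∧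
      (z u v = 1 ∨ z u v = -1)) ∨
      (v = r 1 u ∧ y u v = 0 ∧ (x u v = 1 ∨ x u v = -1) ∧ (z u v = 1 ∨ z u v = -1)) ∨
      (v = r 2 u ∧ z u v = 0 ∧ (x u v = 1 ∨ x u v = -1) ∧ (y u v = 1 ∨ y u v = -1)) ∨
      ((¬ ∃ i, v = r i u) ∧ x u v = 0 ∧ y u v = 0 ∧ z u v = 0) := by
    intro u v
    by_cases h0 : v = r 0 u
    · refine Or.inl ⟨h0, x3 u v ?_, y2 u v (Or.inl h0), z2 u v (Or.inl h0)⟩
      rintro (h | h)
      · exact hne 0 1 u (by decide) (h0.symm.trans h)
      · exact hne 0 2 u (by decide) (h0.symm.trans h)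
    · by_cases h1 : v = r 1 u
      · refine Or.inr (Or.inl ⟨h1, y3 u v ?_, x2 u v (Or.inl h1), z2 u v (Or.inr h1)⟩)
        rintro (h | h)
        · exact h0 h
        · exact hne 1 2 u (by decide) (h1.symm.trans h)
      · by_cases h2 : v = r 2 u
        · refine Or.inr (Or.inr (Or.inl ⟨h2, z3 u v ?_, x2 u v (Or.inr h2), y2 u v (Or.inr h2)⟩))
          rintro (h | h)
          · exact h0 h
          · exact h1 h
        · refine Or.inr (Or.inr (Or.inr ⟨?_, x3 u v (by tauto), y3 u v (by tauto),
            z3 u v (by tauto)⟩))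
          rintro ⟨i, hi⟩
          fin_cases i
          · exact h0 hi
          · exact h1 hi
          · exact h2 hi
  let f : Fin 4 → V → V → ℤ := fun k u v =>
    match k with
    | 0 => (x u v + y u v + z u v) / 2
    | 1 => (x u v - y u v - z u v) / 2
    | 2 => (y u v - x u v - z u v) / 2
    | 3 => (z u v - x u v - y u v) / 2
  have f0 : ∀ u v, 2 * f 0 u v = x u v + y u v + z u v := by
    intro u v
    have := key u v
    simp only [f]
    omega
  have f1 : ∀ u v, 2 * f 1 u v = x u v - y u v - z u v := by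
    intro u v
    have := key u v
    simp only [f]
    omega
  have f2 : ∀ u v, 2 * f 2 u v = y u v - x u v - z u v := by
    intro u v
    have := key u v
    simp only [f]
    omega
  have f3 : ∀ u v, 2 * f 3 u v = z u v - x u v - y u v := by
    intro u v
    have := key u v
    simp only [f]
    omega
  have hanti : ∀ k u v, f k v u = - f k u v := by
    intro k u v
    have a1 := x1 u v
    have a2 := y1 u v
    have a3 := z1 u v
    have b0 := f0 u v
    have b1 := f1 u v
    have b2 := f2 u v
    have b3 := f3 u v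
    have c0 := f0 v u
    have c1 := f1 v u
    have c2 := f2 v u
    have c3 := f3 v u
    fin_cases k
    · show f 0 v u = - f 0 u v
      omega
    · show f 1 v u = - f 1 u v
      omega
    · show f 2 v u = - f 2 u v
      omega
    · show f 3 v u = - f 3 u v
      omega
  have hval : ∀ k u v, f k u v = 0 ∨ f k u v = 1 ∨ f k u v = -1 := by
    intro k u v
    have := key u v
    have b0 := f0 u v
    have b1 := f1 u v
    have b2 := f2 u v
    have b3 := f3 u v
    fin_cases k
    · show f 0 u v = 0 ∨ f 0 u v = 1 ∨ f 0 u v = -1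
      omega
    · show f 1 u v = 0 ∨ f 1 u v = 1 ∨ f 1 u v = -1
      omega
    · show f 2 u v = 0 ∨ f 2 u v = 1 ∨ f 2 u v = -1
      omega
    · show f 3 u v = 0 ∨ f 3 u v = 1 ∨ f 3 u v = -1
      omega
  have hzero : ∀ k u v, (¬ ∃ i, v = r i u) → f k u v = 0 := by
    intro k u v hn
    have b0 := f0 u v
    have b1 := f1 u v
    have b2 := f2 u v
    have b3 := f3 u v
    have hx : x u v = 0 := x3 u v (by rintro (h | h) <;> exact hn ⟨_, h⟩)
    have hy : y u v = 0 := y3 u v (by rintro (h | h) <;> exact hn ⟨_, h⟩)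
    have hz : z u v = 0 := z3 u v (by rintro (h | h) <;> exact hn ⟨_, h⟩)
    fin_cases k
    · show f 0 u v = 0
      omega
    · show f 1 u v = 0
      omega
    · show f 2 u v = 0
      omega
    · show f 3 u v = 0
      omega
  have hcons : ∀ k u, ∑ w, f k u w = 0 := by
    intro k u
    have h2 : 2 * ∑ w, f k u w = 0 := by
      rw [Finset.mul_sum]
      fin_cases k
      · show ∑ w, 2 * f 0 u w = 0
        rw [Finset.sum_congr rfl (fun w _ => f0 u w), Finset.sum_add_distrib,
          Finset.sum_add_distrib, x4, y4, z4]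
        norm_num
      · show ∑ w, 2 * f 1 u w = 0
        rw [Finset.sum_congr rfl (fun w _ => f1 u w), Finset.sum_sub_distrib,
          Finset.sum_sub_distrib, x4, y4, z4]
        norm_num
      · show ∑ w, 2 * f 2 u w = 0
        rw [Finset.sum_congr rfl (fun w _ => f2 u w), Finset.sum_sub_distrib,
          Finset.sum_sub_distrib, x4, y4, z4]
        norm_num
      · show ∑ w, 2 * f 3 u w = 0
        rw [Finset.sum_congr rfl (fun w _ => f3 u w), Finset.sum_sub_distrib,
          Finset.sum_sub_distrib, x4, y4, z4]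
        norm_num
    omega
  have hdec : ∀ k, Dec G (fun u v => f k u v = 1) := by
    intro k
    obtain ⟨C, h1, h2⟩ := flow_decomp (G := G) (f k) (hanti k) (hval k) (by
      intro u v h
      by_contra hna
      apply h
      apply hzero
      rintro ⟨i, rfl⟩
      exact hna (hadj i u)) (hcons k)
    exact ⟨C, h1, h2⟩
  refine (Dec.fsum (univ : Finset (Fin 4)) (fun k u v => f k u v = 1) (fun k _ => hdec k) ?_).congr ?_
  · intro i _ j _ u v hi hj
    have := key u v
    have b0 := f0 u v
    have b1 := f1 u v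
    have b2 := f2 u v
    have b3 := f3 u v
    fin_cases i <;> fin_cases j <;> first
      | rfl
      | (exfalso
         simp only [Fin.zero_eta, Fin.mk_one, Fin.reduceFinMk] at hi hj
         omega)
  · intro u v
    have hk := key u v
    have b0 := f0 u v
    have b1 := f1 u v
    have b2 := f2 u v
    have b3 := f3 u v
    constructor
    · rintro ⟨k, _, h⟩
      by_contra hn
      have := hzero k u v hn
      omega
    · rintro hex
      have : f 0 u v = 1 ∨ f 1 u v = 1 ∨ f 2 u v = 1 ∨ f 3 u v = 1 := by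
        rcases hk with ⟨_, h⟩ | ⟨_, h⟩ | ⟨_, h⟩ | ⟨h, _⟩
        · omega
        · omega
        · omega
        · exact absurd hex h
      rcases this with h | h | h | h
      · exact ⟨0, mem_univ _, h⟩
      · exact ⟨1, mem_univ _, h⟩
      · exact ⟨2, mem_univ _, h⟩
      · exact ⟨3, mem_univ _, h⟩

end Pool.Agent.J4H91.OC
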