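import Pool.Agent.J4H91.OC.Reg

set_option autoImplicit false

/-!
The cubic pieces and the main theorem.
-/

namespace Pool.Agent.J4H91.OC

open Finset

variable {V H : Type} {G : SimpleGraph V} [Group H] [MulAction H V] {v0 : V}

namespace Regular

variable [Finite V] [Finite H]

omit [Finite H] in
/-- three involutions -/
lemma D_inv3 (R : Regular V H G v0) {a b c : H} (ha : a ∈ R.S) (hb : b ∈ R.S) (hc : c ∈ R.S)
    (ha2 : a * a = 1) (hb2 : b * b = 1) (hc2 : c * c = 1) (hab : a ≠ b) (hac : a ≠ c)
    (hbc : b ≠ c) : R.D {a, b, c} := by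
  classical
  let t : Fin 3 → H := ![a, b, c]
  have ht : ∀ i, t i ∈ R.S ∧ t i * t i = 1 := by
    intro i
    fin_cases i
    · exact ⟨ha, ha2⟩
    · exact ⟨hb, hb2⟩
    · exact ⟨hc, hc2⟩
  have hti : Function.Injective t := by
    intro i j hij
    fin_cases i <;> fin_cases j <;> first
      | rfl
      | exact absurd hij hab
      | exact absurd hij hac
      | exact absurd hij hbc
      | exact absurd hij.symm hab
      | exact absurd hij.symm hac
      | exact absurd hij.symm hbc
  refine (Dec.three (G := G) (fun i v => (R.φ v * t i) • v0) ?_ ?_ ?_).congr ?_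
  · intro i v
    simp only [R.phi]
    rw [mul_assoc, (ht i).2, mul_one, R.hφ]
  · intro i v
    rw [R.adj_iff, R.ty_mul]
    exact (ht i).1
  · intro i j v hij h
    exact hij (hti (mul_left_cancel (R.inj h)))
  · intro u v
    have hty : ∀ i, v = (R.φ u * t i) • v0 ↔ R.ty u v = t i := by
      intro i
      rw [R.ty_eq]
      constructor
      · rintro rfl; rw [R.phi]
      · intro h; rw [← h, R.hφ]
    simp only [hty, Set.mem_insert_iff, Set.mem_singleton_iff]
    constructor
    · rintro ⟨i, hi⟩
      fin_cases i
      · exact Or.inl hi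
      · exact Or.inr (Or.inl hi)
      · exact Or.inr (Or.inr hi)
    · rintro (h | h | h)
      · exact ⟨0, h⟩
      · exact ⟨1, h⟩
      · exact ⟨2, h⟩

omit [Finite H] in
/-- an involution and an element of even order -/
lemma D_even (R : Regular V H G v0) {a s : H} (ha : a ∈ R.S) (hs : s ∈ R.S)
    (ha2 : a * a = 1) (hs2 : s * s ≠ 1) (hev : 2 ∣ orderOf s) : R.D {a, s, s⁻¹} := by
  classical
  obtain ⟨χ, hχ⟩ := parity s hev
  have hχ' : ∀ g, χ (g * s⁻¹) = χ g + 1 := by
    intro g
    have := hχ (g * s⁻¹)
    rw [inv_mul_cancel_right] at this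
    rw [this, add_assoc, CharTwo.add_self_eq_zero, add_zero]
  have hss : s ≠ s⁻¹ := by
    intro h
    apply hs2
    nth_rw 2 [h]
    exact mul_inv_cancel s
  have has : a ≠ s := by rintro rfl; exact hs2 ha2
  have has' : a ≠ s⁻¹ := by
    intro h
    apply hs2
    rw [h, ← mul_inv_rev] at ha2
    exact inv_eq_one.1 ha2
  have h01 : ∀ x : ZMod 2, x ≠ 0 → x + 1 = 0 := by decide
  have h10 : ∀ x : ZMod 2, x = 0 → x + 1 ≠ 0 := by decide
  let t : Fin 3 → H → H := fun i g =>
    match i with
    | 0 => a
    | 1 => if χ g = 0 then s else s⁻¹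
    | 2 => if χ g = 0 then s⁻¹ else s
  have ht : ∀ i g, t i g ∈ R.S ∧ t i g * t i (g * t i g) = 1 := by
    intro i g
    fin_cases i
    · exact ⟨ha, ha2⟩
    · by_cases h : χ g = 0
      · simp only [t, if_pos h]
        rw [hχ, if_neg (h10 _ h)]
        exact ⟨hs, mul_inv_cancel s⟩
      · simp only [t, if_neg h]
        rw [hχ', if_pos (h01 _ h)]
        exact ⟨R.S_inv hs, inv_mul_cancel s⟩
    · by_cases h : χ g = 0
      · simp only [t, if_pos h]
        rw [hχ', if_neg (h10 _ h)]
        exact ⟨R.S_inv hs, inv_mul_cancel s⟩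
      · simp only [t, if_neg h]
        rw [hχ, if_pos (h01 _ h)]
        exact ⟨hs, mul_inv_cancel s⟩
  have hti : ∀ i j g, i ≠ j → t i g ≠ t j g := by
    intro i j g hij
    by_cases h : χ g = 0
    · fin_cases i <;> fin_cases j <;> first
        | exact absurd rfl hij
        | (simp only [t, Fin.zero_eta, Fin.mk_one, Fin.reduceFinMk, if_pos h]
           first
            | exact has
            | exact has'
            | exact hss
            | exact has.symm
            | exact has'.symm
            | exact hss.symm)
    · fin_cases i <;> fin_cases j <;> first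
        | exact absurd rfl hij
        | (simp only [t, Fin.zero_eta, Fin.mk_one, Fin.reduceFinMk, if_neg h]
           first
            | exact has
            | exact has'
            | exact hss
            | exact has.symm
            | exact has'.symm
            | exact hss.symm)
  refine (Dec.three (G := G) (fun i v => (R.φ v * t i (R.φ v)) • v0) ?_ ?_ ?_).congr ?_
  · intro i v
    simp only [R.phi]
    rw [mul_assoc, (ht i _).2, mul_one, R.hφ]
  · intro i v
    rw [R.adj_iff, R.ty_mul]
    exact (ht i _).1
  · intro i j v hij h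
    exact hti i j _ hij (mul_left_cancel (R.inj h))
  · intro u v
    have hty : ∀ i, v = (R.φ u * t i (R.φ u)) • v0 ↔ R.ty u v = t i (R.φ u) := by
      intro i
      rw [R.ty_eq]
      constructor
      · rintro rfl; rw [R.phi]
      · intro h; rw [← h, R.hφ]
    simp only [hty, Set.mem_insert_iff, Set.mem_singleton_iff]
    constructor
    · rintro ⟨i, hi⟩
      by_cases h : χ (R.φ u) = 0
      · fin_cases i
        · exact Or.inl hi
        · simp only [t, if_pos h] at hi
          exact Or.inr (Or.inl hi)
        · simp only [t, if_pos h] at hi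
          exact Or.inr (Or.inr hi)
      · fin_cases i
        · exact Or.inl hi
        · simp only [t, if_neg h] at hi
          exact Or.inr (Or.inr hi)
        · simp only [t, if_neg h] at hi
          exact Or.inr (Or.inl hi)
    · by_cases h : χ (R.φ u) = 0
      · rintro (h1 | h1 | h1)
        · exact ⟨0, h1⟩
        · exact ⟨1, by simp only [t, if_pos h]; exact h1⟩
        · exact ⟨2, by simp only [t, if_pos h]; exact h1⟩
      · rintro (h1 | h1 | h1)
        · exact ⟨0, h1⟩
        · exact ⟨2, by simp only [t, if_neg h]; exact h1⟩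
        · exact ⟨1, by simp only [t, if_neg h]; exact h1⟩

/-- a prism: an involution and a commuting element of odd order -/
lemma D_odd (R : Regular V H G v0) {a s : H} (ha : a ∈ R.S) (hs : s ∈ R.S)
    (ha2 : a * a = 1) (hs2 : s * s ≠ 1) (hodd : ¬ 2 ∣ orderOf s) (hc : a * s = s * a) :
    R.D {a, s, s⁻¹} := by
  classical
  have hai : a⁻¹ = a := inv_eq_of_mul_eq_one_left ha2
  have ha1 : a ≠ 1 := fun h => R.one_notMem (h ▸ ha)
  have hcomm : Commute a s := hc
  obtain ⟨n, hn⟩ : Odd (orderOf s) := by
    rw [← Nat.not_even_iff_odd, even_iff_two_dvd]; exact hodd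
  have hsn : s ^ (2 * n + 1) = 1 := by rw [← hn]; exact pow_orderOf_eq_one s
  have haodd : ∀ k : ℕ, a ^ (2 * k + 1) = a := by
    intro k
    rw [pow_succ, pow_mul, pow_two, ha2, one_pow, one_mul]
  have hton : (a * s) ^ (2 * n + 1) = a := by
    rw [hcomm.mul_pow, hsn, mul_one, haodd]
  have hev : 2 ∣ orderOf (a * s) := by
    by_contra hno
    obtain ⟨m, hm⟩ : Odd (orderOf (a * s)) := by
      rw [← Nat.not_even_iff_odd, even_iff_two_dvd]; exact hno
    have h1 : (a * s) ^ (2 * m + 1) = 1 := by rw [← hm]; exact pow_orderOf_eq_one _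
    have h2 : ((a * s) ^ (2 * m + 1)) ^ (2 * n + 1) = 1 := by rw [h1, one_pow]
    rw [← pow_mul, mul_comm, pow_mul, hton, haodd] at h2
    exact ha1 h2
  obtain ⟨χ, hχ⟩ := parity (a * s) hev
  have hχk : ∀ (k : ℕ) (g : H), χ (g * (a * s) ^ k) = χ g + (k : ZMod 2) := by
    intro k
    induction k with
    | zero => intro g; simp
    | succ k ih =>
      intro g
      rw [pow_succ, ← mul_assoc, hχ, ih]
      push_cast
      ring
  have hχa : ∀ g, χ (g * a) = χ g + 1 := by
    intro g
    have := hχk (2 * n + 1) g
    rw [hton] at this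
    rw [this]
    push_cast
    have h2 : (2 : ZMod 2) = 0 := by decide
    rw [h2, zero_mul, zero_add]
  have hχs : ∀ g, χ (g * s) = χ g := by
    intro g
    have h1 := hχ (g * a)
    have h2 : g * a * (a * s) = g * s := by
      calc g * a * (a * s) = g * (a * a) * s := by group
        _ = g * s := by rw [ha2, mul_one]
    rw [h2, hχa, add_assoc, CharTwo.add_self_eq_zero, add_zero] at h1
    exact h1
  have hχs' : ∀ g, χ (g * s⁻¹) = χ g := by
    intro g
    have := hχs (g * s⁻¹)
    rw [inv_mul_cancel_right] at this
    exact this.symm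
  have hss : s ≠ s⁻¹ := by
    intro h
    apply hs2
    nth_rw 2 [h]
    exact mul_inv_cancel s
  have hs1 : s ≠ 1 := fun h => R.one_notMem (h ▸ hs)
  have has : a ≠ s := by rintro rfl; exact hs2 ha2
  have has' : a ≠ s⁻¹ := by
    intro h
    apply hs2
    rw [h, ← mul_inv_rev] at ha2
    exact inv_eq_one.1 ha2
  have hcs' : a * s⁻¹ = s⁻¹ * a := (Commute.inv_right hcomm)
  have h01 : ∀ x : ZMod 2, x ≠ 0 → x + 1 = 0 := by decide
  have h10 : ∀ x : ZMod 2, x = 0 → x + 1 ≠ 0 := by decide
  -- the next type
  let nt : H → H → H := fun t g =>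
    if t = a then (if χ g = 0 then s else s⁻¹) else
      if t = s then (if χ g = 0 then a else s) else (if χ g = 0 then s⁻¹ else a)
  -- the class
  let cl : H → H → Option H := fun t p =>
    if t = a then (if χ p = 0 then some (p * s⁻¹) else some (p * a)) else
      if t = s then (if χ p = 0 then some p else none) else
        (if χ p = 0 then none else some (p * a * s⁻¹))
  refine Dec.next (A := fun x y => R.ty x y ∈ ({a, s, s⁻¹} : Set H)) ?_
    (fun x y => (R.φ y * nt (R.ty x y) (R.φ y)) • v0)
    (fun x y => cl (R.ty x y) (R.φ x)) ?_ ?_ ?_ ?_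
  · intro u v h
    rw [R.adj_iff]
    rcases h with h | h | h
    · rw [h]; exact ha
    · rw [h]; exact hs
    · have h : R.ty u v = s⁻¹ := h
      rw [h]; exact R.S_inv hs
  · intro u v h
    rw [R.ty_mul]
    simp only [nt]
    split_ifs
    · exact Or.inr (Or.inl rfl)
    · exact Or.inr (Or.inr rfl)
    · exact Or.inl rfl
    · exact Or.inr (Or.inl rfl)
    · exact Or.inr (Or.inr rfl)
    · exact Or.inl rfl
  · intro u u' v h h' hN
    have h1 : nt (R.ty u v) (R.φ v) = nt (R.ty u' v) (R.φ v) := mul_left_cancel (R.inj hN)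
    have h2 : R.ty u v = R.ty u' v := by
      rcases h with h | h | h
      · rcases h' with h' | h' | h'
        · rw [h, h']
        · exfalso
          rw [h, h'] at h1
          simp only [nt, if_true, if_neg has.symm] at h1
          split_ifs at h1
          · exact has h1.symm
          · exact hss h1.symm
        · have h' : R.ty u' v = s⁻¹ := h'
          exfalso
          rw [h, h'] at h1
          simp only [nt, if_true, if_neg has'.symm, if_neg hss.symm] at h1
          split_ifs at h1
          · exact hss h1
          · exact has' h1.symm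
      · rcases h' with h' | h' | h'
        · exfalso
          rw [h, h'] at h1
          simp only [nt, if_true, if_neg has.symm] at h1
          split_ifs at h1
          · exact has h1
          · exact hss h1
        · rw [h, h']
        · have h' : R.ty u' v = s⁻¹ := h'
          exfalso
          rw [h, h'] at h1
          simp only [nt, if_true, if_neg has'.symm, if_neg has.symm, if_neg hss.symm] at h1
          split_ifs at h1
          · exact has' h1
          · exact has h1.symm
      · have h : R.ty u v = s⁻¹ := h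
        rcases h' with h' | h' | h'
        · exfalso
          rw [h, h'] at h1
          simp only [nt, if_true, if_neg has'.symm, if_neg hss.symm] at h1
          split_ifs at h1
          · exact hss h1.symm
          · exact has' h1
        · exfalso
          rw [h, h'] at h1
          simp only [nt, if_true, if_neg has'.symm, if_neg has.symm, if_neg hss.symm] at h1
          split_ifs at h1
          · exact has' h1.symm
          · exact has h1
        · have h' : R.ty u' v = s⁻¹ := h'
          rw [h, h']
    have h3 := R.ty_eq.1 h2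
    rw [R.ty_eq.1 (rfl : R.ty u' v = R.ty u' v)] at h3
    exact (R.phi_inj (mul_right_cancel h3)).symm
  · intro u v h
    simp only [R.ty_mul]
    rcases h with h | h | h
    · have hv := R.ty_eq.1 h
      rw [h]
      by_cases hu : χ (R.φ u) = 0
      · have hv0 : χ (R.φ v) ≠ 0 := by rw [hv, hχa]; exact h10 _ hu
        simp only [nt, cl, if_true, if_neg hv0, if_pos hu, if_neg has'.symm, if_neg hss.symm]
        rw [hv]
        congr 1
        rw [mul_assoc (R.φ u) a a, ha2, mul_one]
      · have hv0 : χ (R.φ v) = 0 := by rw [hv, hχa]; exact h01 _ hu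
        simp only [nt, cl, if_true, if_pos hv0, if_neg hu, if_neg has.symm]
        rw [hv]
    · have hv := R.ty_eq.1 h
      rw [h]
      by_cases hu : χ (R.φ u) = 0
      · have hv0 : χ (R.φ v) = 0 := by rw [hv, hχs]; exact hu
        simp only [nt, cl, if_true, if_pos hv0, if_pos hu, if_neg has.symm]
        rw [hv]
        congr 1
        rw [mul_inv_cancel_right]
      · have hv0 : χ (R.φ v) ≠ 0 := by rw [hv, hχs]; exact hu
        simp only [nt, cl, if_true, if_neg hv0, if_neg hu, if_neg has.symm]
    · have h : R.ty u v = s⁻¹ := h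
      have hv := R.ty_eq.1 h
      rw [h]
      by_cases hu : χ (R.φ u) = 0
      · have hv0 : χ (R.φ v) = 0 := by rw [hv, hχs']; exact hu
        simp only [nt, cl, if_pos hv0, if_pos hu, if_neg has'.symm, if_neg hss.symm]
      · have hv0 : χ (R.φ v) ≠ 0 := by rw [hv, hχs']; exact hu
        simp only [nt, cl, if_true, if_neg hv0, if_neg hu, if_neg has'.symm, if_neg hss.symm]
        rw [hv]
        congr 1
        rw [mul_assoc, mul_assoc, hcs']
  · intro u v h h' hk
    have hinv := R.ty_inv u v
    rcases h with h | h | h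
    · rw [h, hai] at hinv
      have hv := R.ty_eq.1 h
      rw [h, hinv] at hk
      by_cases hu : χ (R.φ u) = 0
      · have hv0 : χ (R.φ v) ≠ 0 := by rw [hv, hχa]; exact h10 _ hu
        simp only [cl, if_true, if_pos hu, if_neg hv0, Option.some.injEq] at hk
        rw [hv, mul_assoc (R.φ u) a a, ha2, mul_one] at hk
        exact hs1 (inv_eq_one.1 (mul_eq_left.1 hk))
      · have hv0 : χ (R.φ v) = 0 := by rw [hv, hχa]; exact h01 _ hu
        simp only [cl, if_true, if_neg hu, if_pos hv0, Option.some.injEq] at hk
        rw [hv] at hk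
        exact hs1 (inv_eq_one.1 (mul_eq_left.1 hk.symm))
    · rw [h] at hinv
      have hv := R.ty_eq.1 h
      rw [h, hinv] at hk
      by_cases hu : χ (R.φ u) = 0
      · have hv0 : χ (R.φ v) = 0 := by rw [hv, hχs]; exact hu
        simp only [cl, if_true, if_neg has.symm, if_neg has'.symm, if_neg hss.symm, if_pos hu,
          if_pos hv0] at hk
        exact absurd hk (Option.some_ne_none _)
      · have hv0 : χ (R.φ v) ≠ 0 := by rw [hv, hχs]; exact hu
        simp only [cl, if_true, if_neg has.symm, if_neg has'.symm, if_neg hss.symm, if_neg hu,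
          if_neg hv0] at hk
        exact absurd hk.symm (Option.some_ne_none _)
    · have h : R.ty u v = s⁻¹ := h
      rw [h, inv_inv] at hinv
      have hv := R.ty_eq.1 h
      rw [h, hinv] at hk
      by_cases hu : χ (R.φ u) = 0
      · have hv0 : χ (R.φ v) = 0 := by rw [hv, hχs']; exact hu
        simp only [cl, if_true, if_neg has.symm, if_neg has'.symm, if_neg hss.symm, if_pos hu,
          if_pos hv0] at hk
        exact absurd hk.symm (Option.some_ne_none _)
      · have hv0 : χ (R.φ v) ≠ 0 := by rw [hv, hχs']; exact hu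
        simp only [cl, if_true, if_neg has.symm, if_neg has'.symm, if_neg hss.symm, if_neg hu,
          if_neg hv0] at hk
        exact absurd hk (Option.some_ne_none _)

/-- involutions, but not exactly one -/
lemma D_inv (R : Regular V H G v0) : ∀ (n : ℕ) (T : Finset H), T.card = n → n ≠ 1 →
    (∀ t ∈ T, t ∈ R.S ∧ t * t = 1) → R.D (T : Set H) := by
  classical
  intro n
  induction n using Nat.strong_induction_on with
  | _ n ih =>
    intro T hT hn hI
    by_cases h0 : n = 0
    · rw [h0, Finset.card_eq_zero] at hT
      rw [hT, Finset.coe_empty]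
      exact R.D_empty
    by_cases h2 : n = 2
    · rw [h2, Finset.card_eq_two] at hT
      obtain ⟨a, b, hab, rfl⟩ := hT
      have ha := hI a (by simp)
      have hb := hI b (by simp)
      exact (R.D_inv2 ha.1 hb.1 ha.2 hb.2 hab).of_eq (by simp)
    by_cases h3 : n = 3
    · rw [h3, Finset.card_eq_three] at hT
      obtain ⟨a, b, c, hab, hac, hbc, rfl⟩ := hT
      have ha := hI a (by simp)
      have hb := hI b (by simp)
      have hc := hI c (by simp)
      exact (R.D_inv3 ha.1 hb.1 hc.1 ha.2 hb.2 hc.2 hab hac hbc).of_eq (by simp)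
    · obtain ⟨U, hU, hUc⟩ := Finset.exists_subset_card_eq (show 2 ≤ T.card by omega)
      rw [Finset.card_eq_two] at hUc
      obtain ⟨a, b, hab, rfl⟩ := hUc
      have ha := hI a (hU (by simp))
      have hb := hI b (hU (by simp))
      have hc : (T \ {a, b}).card = n - 2 := by
        rw [Finset.card_sdiff_of_subset hU, hT, Finset.card_pair hab]
      have h4 := ih (n - 2) (by omega) (T \ {a, b}) hc (by omega)
        (fun t ht => hI t (Finset.mem_sdiff.1 ht).1)
      refine ((R.D_inv2 ha.1 hb.1 ha.2 hb.2 hab).union h4 ?_).of_eq ?_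
      · intro t ht ht'
        rw [Finset.mem_coe, Finset.mem_sdiff] at ht'
        apply ht'.2
        rcases ht with h | h
        · simp [h]
        · have h : t = b := h
          simp [h]
      · ext t
        simp only [Set.mem_union, Set.mem_insert_iff, Set.mem_singleton_iff, Finset.mem_coe,
          Finset.mem_sdiff, Finset.mem_insert, Finset.mem_singleton]
        constructor
        · rintro ((rfl | rfl) | h)
          · exact hU (by simp)
          · exact hU (by simp)
          · exact h.1
        · intro h
          by_cases h5 : t = a ∨ t = b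
          · exact Or.inl h5
          · exact Or.inr ⟨h, h5⟩

/-- elements that are not involutions -/
lemma D_non (R : Regular V H G v0) (T : Set H) (hT : ∀ t ∈ T, t ∈ R.S ∧ t * t ≠ 1) : R.D T := by
  classical
  have hf : Fintype T := Fintype.ofFinite T
  refine (Dec.fsum (G := G) T.toFinset (fun t x y => R.ty x y ∈ ({t} : Set H)) ?_ ?_).congr ?_
  · intro t ht
    rw [Set.mem_toFinset] at ht
    exact R.D_single (hT t ht).1 (hT t ht).2
  · rintro i _ j _ u v h1 h2
    exact (Set.mem_singleton_iff.1 h1).symm.trans (Set.mem_singleton_iff.1 h2)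
  · intro u v
    simp only [Set.mem_toFinset, Set.mem_singleton_iff]
    constructor
    · rintro ⟨t, ht, h⟩; rw [h]; exact ht
    · intro h; exact ⟨_, h, rfl⟩

/-- the connection set decomposes -/
theorem D_all (R : Regular V H G v0) (hdeg : ∀ a ∈ R.S, ∃ s ∈ R.S, s ≠ a) : R.D R.S := by
  classical
  have hf : Fintype H := Fintype.ofFinite H
  set I : Finset H := univ.filter (fun t => t ∈ R.S ∧ t * t = 1) with hI
  set J : Set H := {t | t ∈ R.S ∧ t * t ≠ 1} with hJ
  have hIJ : (I : Set H) ∪ J = R.S := by
    ext t
    simp only [hI, hJ, Set.mem_union, Finset.coe_filter, Finset.mem_univ, true_and,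
      Set.mem_setOf_eq]
    tauto
  by_cases h1 : I.card = 1
  · obtain ⟨a, ha⟩ := Finset.card_eq_one.1 h1
    have haI : a ∈ I := by rw [ha]; simp
    rw [hI, Finset.mem_filter] at haI
    obtain ⟨_, haS, ha2⟩ := haI
    obtain ⟨s, hsS, hsa⟩ := hdeg a haS
    have hs2 : s * s ≠ 1 := by
      intro h
      have : s ∈ I := by rw [hI, Finset.mem_filter]; exact ⟨mem_univ _, hsS, h⟩
      rw [ha, Finset.mem_singleton] at this
      exact hsa this
    have hmemI : ∀ t ∈ R.S, t * t = 1 → t = a := by
      intro t ht h
      have : t ∈ I := by rw [hI, Finset.mem_filter]; exact ⟨mem_univ _, ht, h⟩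
      rw [ha, Finset.mem_singleton] at this
      exact this
    have hfin : ∀ T : Set H, a ∈ T → T ⊆ R.S → R.D T → R.D R.S := by
      intro T haT hTS hT
      have h2 : R.D (R.S \ T) := by
        refine R.D_non _ ?_
        rintro t ⟨ht, htT⟩
        refine ⟨ht, ?_⟩
        intro h
        exact htT (hmemI t ht h ▸ haT)
      refine (hT.union h2 (fun t ht ht' => ht'.2 ht)).of_eq ?_
      exact Set.union_diff_cancel hTS
    by_cases hz : a ∈ Subgroup.zpowers (a * s)
    · have hc := comm_of_mem hz
      have hsub : ({a, s, s⁻¹} : Set H) ⊆ R.S := by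
        rintro t (h | h | h)
        · rw [h]; exact haS
        · rw [h]; exact hsS
        · have h : t = s⁻¹ := h
          rw [h]; exact R.S_inv hsS
      by_cases hev : 2 ∣ orderOf s
      · exact hfin _ (by simp) hsub (R.D_even haS hsS ha2 hs2 hev)
      · exact hfin _ (by simp) hsub (R.D_odd haS hsS ha2 hs2 hev hc)
    · have hsub : ({a, s} : Set H) ⊆ R.S := by
        rintro t (h | h)
        · rw [h]; exact haS
        · have h : t = s := h
          rw [h]; exact hsS
      exact hfin _ (by simp) hsub (R.D_pair haS hsS ha2 hsa hz)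
  · refine ((R.D_inv _ I rfl h1 ?_).union (R.D_non J (fun t ht => ht)) ?_).of_eq hIJ
    · intro t ht
      exact (Finset.mem_filter.1 ht).2
    · intro t ht ht'
      rw [Finset.mem_coe, hI, Finset.mem_filter] at ht
      exact ht'.2 ht.2.2

end Regular

/-- The main theorem. -/
theorem main [Finite V] [Finite H] (hAut : ∀ (h : H) u v, G.Adj u v → G.Adj (h • u) (h • v))
    (hfree : ∀ (h : H) u v, G.Adj u v → h • u = u → h • v = v → h = 1)
    (htr : ∀ u v : V, ∃ h : H, h • u = v)
    (hdeg : ∀ u v : V, G.Adj u v → ∃ w, w ≠ v ∧ G.Adj u w) : Dec G G.Adj := by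
  classical
  by_cases hV : Nonempty V
  · obtain ⟨v0⟩ := hV
    by_cases hst : ∀ h : H, h • v0 = v0 → h = 1
    · choose φ hφ using fun v => htr v0 v
      let R : Regular V H G v0 := ⟨hAut, hst, φ, hφ⟩
      refine (R.D_all ?_).congr (fun u v => (R.adj_iff u v).symm)
      intro a ha
      obtain ⟨w, hw, hvw⟩ := hdeg v0 (a • v0) ha
      refine ⟨φ w, ?_, ?_⟩
      · show G.Adj v0 (φ w • v0)
        rw [hφ]; exact hvw
      · rintro rfl
        exact hw (hφ w).symm
    · push Not at hst
      obtain ⟨c, hc, hc1⟩ := hst
      exact stab_dec hAut hfree htr hc1 hc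
  · exact Dec.empty (fun u _ _ => hV ⟨u⟩)

end Pool.Agent.J4H91.OC
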