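import Pool.Agent.J4H91.OC.Dec

set_option autoImplicit false

/-!
Orbits of arcs under a group with trivial arc stabilizers.
-/

namespace Pool.Agent.J4H91.OC

open Finset

variable {V H : Type} {G : SimpleGraph V} [Group H] [MulAction H V]

/-- One orbit of arcs. -/
theorem orbit_dec [Finite V] [Finite H] (hAut : ∀ (h : H) u v, G.Adj u v → G.Adj (h • u) (h • v))
    (hfree : ∀ (h : H) u v, G.Adj u v → h • u = u → h • v = v → h = 1)
    {v0 u0 : V} (he : G.Adj v0 u0) (g : H) (hg : g • v0 = u0)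
    (hτ : ∀ τ : H, τ • v0 = u0 → τ • u0 = v0 → τ ∉ Subgroup.zpowers g) :
    Dec G (fun x y => ∃ h : H, x = h • v0 ∧ y = h • u0) := by
  classical
  have huniq : ∀ h k : H, h • v0 = k • v0 → h • u0 = k • u0 → h = k := by
    intro h k h1 h2
    have := hfree (k⁻¹ * h) v0 u0 he (by rw [mul_smul, h1, inv_smul_smul])
      (by rw [mul_smul, h2, inv_smul_smul])
    exact (inv_mul_eq_one.1 this).symm
  let hh : V → V → H := fun x y => if h : ∃ h : H, x = h • v0 ∧ y = h • u0 then h.choose else 1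
  have hh1 : ∀ x y, (∃ h : H, x = h • v0 ∧ y = h • u0) → x = hh x y • v0 ∧ y = hh x y • u0 := by
    intro x y h
    simp only [hh, dif_pos h]
    exact h.choose_spec
  have hh2 : ∀ h : H, hh (h • v0) (h • u0) = h := by
    intro h
    have := hh1 (h • v0) (h • u0) ⟨h, rfl, rfl⟩
    exact (huniq _ _ this.1 this.2).symm
  refine Dec.next (A := fun x y => ∃ h : H, x = h • v0 ∧ y = h • u0) ?_
    (fun x y => (hh x y * g) • u0)
    (fun x y => ((hh x y : H) : H ⧸ Subgroup.zpowers g)) ?_ ?_ ?_ ?_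
  · rintro u v ⟨h, rfl, rfl⟩
    exact hAut h _ _ he
  · rintro u v ⟨h, rfl, rfl⟩
    refine ⟨h * g, ?_, ?_⟩
    · rw [mul_smul, hg]
    · simp only [hh2]
  · rintro u u' v ⟨h, rfl, rfl⟩ ⟨h', rfl, hv⟩ hN
    simp only [hh2] at hN
    rw [hv, hh2] at hN
    have : h * g = h' * g := by
      apply huniq
      · rw [mul_smul, mul_smul, hg]; exact hv
      · exact hN
    rw [mul_right_cancel this]
  · rintro u v ⟨h, rfl, rfl⟩
    simp only [hh2]
    have h1 : h • u0 = (h * g) • v0 := by rw [mul_smul, hg]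
    rw [h1, hh2, QuotientGroup.eq]
    refine ⟨-1, ?_⟩
    simp
  · rintro u v ⟨h, rfl, rfl⟩ ⟨h', h1, h2⟩ hk
    simp only [hh2] at hk
    rw [h1, h2, hh2, QuotientGroup.eq] at hk
    refine hτ (h⁻¹ * h') ?_ ?_ hk
    · rw [mul_smul, ← h1, inv_smul_smul]
    · rw [mul_smul, ← h2, inv_smul_smul]

/-- A suitable element exists if the stabilizer of `v0` is not trivial and the edge can be
reversed. -/
theorem exists_g' (hfree : ∀ (h : H) u v, G.Adj u v → h • u = u → h • v = v → h = 1)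
    {v0 u0 : V} (he : G.Adj v0 u0) {c : H} (hc : c ≠ 1) (hcv : c • v0 = v0)
    (hex : ∃ τ : H, τ • v0 = u0 ∧ τ • u0 = v0) :
    ∃ g : H, g • v0 = u0 ∧ ∀ τ : H, τ • v0 = u0 → τ • u0 = v0 → τ ∉ Subgroup.zpowers g := by
  obtain ⟨τ, h1, h2⟩ := hex
  refine ⟨τ * c, by rw [mul_smul, hcv, h1], ?_⟩
  intro τ' h1' h2' hmem
  have hττ : τ' = τ := by
    have := hfree (τ⁻¹ * τ') v0 u0 he (by rw [mul_smul, h1', ← h1, inv_smul_smul])
      (by rw [mul_smul, h2', ← h2, inv_smul_smul])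
    exact (inv_mul_eq_one.1 this).symm
  rw [hττ] at hmem
  obtain ⟨k, hk⟩ := hmem
  have hcomm : τ * (τ * c) = (τ * c) * τ := by
    have h3 : (τ * c) ^ k * (τ * c) = (τ * c) * (τ * c) ^ k := by
      rw [← zpow_add_one, ← zpow_one_add, add_comm]
    have hk' : (τ * c) ^ k = τ := hk
    rw [hk'] at h3
    exact h3
  have hcomm2 : τ * c = c * τ := by
    rw [mul_assoc τ c τ] at hcomm
    exact mul_left_cancel hcomm
  apply hc
  refine hfree c v0 u0 he hcv ?_
  rw [← h1, ← mul_smul, ← hcomm2, mul_smul, hcv]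

/-- A suitable element exists if the stabilizer of `v0` is not trivial. -/
theorem exists_g (hfree : ∀ (h : H) u v, G.Adj u v → h • u = u → h • v = v → h = 1)
    (htr : ∀ u v : V, ∃ h : H, h • u = v)
    {v0 u0 : V} (he : G.Adj v0 u0) {c : H} (hc : c ≠ 1) (hcv : c • v0 = v0) :
    ∃ g : H, g • v0 = u0 ∧ ∀ τ : H, τ • v0 = u0 → τ • u0 = v0 → τ ∉ Subgroup.zpowers g := by
  by_cases hex : ∃ τ : H, τ • v0 = u0 ∧ τ • u0 = v0
  · exact exists_g' hfree he hc hcv hex
  · obtain ⟨g, hg⟩ := htr v0 u0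
    refine ⟨g, hg, ?_⟩
    intro τ h1 h2
    exact absurd ⟨τ, h1, h2⟩ hex

/-- The case of nontrivial vertex stabilizers. -/
theorem stab_dec [Finite V] [Finite H] (hAut : ∀ (h : H) u v, G.Adj u v → G.Adj (h • u) (h • v))
    (hfree : ∀ (h : H) u v, G.Adj u v → h • u = u → h • v = v → h = 1)
    (htr : ∀ u v : V, ∃ h : H, h • u = v)
    {v1 : V} {c1 : H} (hc : c1 ≠ 1) (hcv : c1 • v1 = v1) : Dec G G.Adj := by
  classical
  refine Dec.classes G.Adj
    (fun u v => (Quotient.mk (MulAction.orbitRel H (V × V)) (u, v))) ?_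
  intro i
  by_cases hex : ∃ v0 u0, G.Adj v0 u0 ∧
      (Quotient.mk (MulAction.orbitRel H (V × V)) (v0, u0)) = i
  · obtain ⟨v0, u0, he, hi⟩ := hex
    obtain ⟨k, hk⟩ := htr v1 v0
    obtain ⟨g, hg, hτ⟩ := exists_g hfree htr he (c := k * c1 * k⁻¹)
      (by intro h
          apply hc
          have : k * c1 = k := by rw [mul_inv_eq_one] at h; exact h
          exact mul_eq_left.1 this)
      (by rw [← hk, ← mul_smul, inv_mul_cancel_right, mul_smul, hcv])
    refine (orbit_dec hAut hfree he g hg hτ).congr ?_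
    intro x y
    constructor
    · rintro ⟨h, rfl, rfl⟩
      refine ⟨hAut h _ _ he, ?_⟩
      rw [← hi]
      apply Quotient.sound
      exact ⟨h, rfl⟩
    · rintro ⟨_, h2⟩
      rw [← hi] at h2
      obtain ⟨h, hh⟩ := Quotient.exact h2
      simp only [Prod.smul_mk, Prod.mk.injEq] at hh
      exact ⟨h, hh.1.symm, hh.2.symm⟩
  · refine Dec.empty ?_
    rintro u v ⟨h1, h2⟩
    exact hex ⟨u, v, h1, h2⟩

end Pool.Agent.J4H91.OC
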