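import Pool.Agent.J4H91.OC.Reg

set_option autoImplicit false

/-!
Edge orbits between vertices with nontrivial stabilizers.
-/

namespace Pool.Agent.J4H91.OC

open Finset

variable {V H : Type} {G : SimpleGraph V} [Group H] [MulAction H V]

/-- An orbit of arcs together with the opposite orbit. -/
theorem pair_dec [Finite V] (hAut : ∀ (h : H) u v, G.Adj u v → G.Adj (h • u) (h • v))
    (hfree : ∀ (h : H) u v, G.Adj u v → h • u = u → h • v = v → h = 1)
    {v u : V} (he : G.Adj v u) (hns : ¬ ∃ τ : H, τ • v = u ∧ τ • u = v)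
    (d : H) (hd : d • u = u) (γ : H → H) (hγ : ∀ h, γ h • v = v)
    (hγi : ∀ h h', h * γ h = h' * γ h' → h = h')
    {I : Type} [Finite I] (κe κr : H → I) (hk1 : ∀ h, κr (h * d) = κe h)
    (hk2 : ∀ h, κe (h * γ h) = κr h) (hk3 : ∀ h, κe h ≠ κr h) :
    Dec G (fun x y => (∃ h : H, x = h • v ∧ y = h • u) ∨ (∃ h : H, x = h • u ∧ y = h • v)) := by
  classical
  have huniq : ∀ h k : H, h • v = k • v → h • u = k • u → h = k := by
    intro h k h1 h2
    have := hfree (k⁻¹ * h) v u he (by rw [mul_smul, h1, inv_smul_smul])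
      (by rw [mul_smul, h2, inv_smul_smul])
    exact (inv_mul_eq_one.1 this).symm
  let P : V → V → Prop := fun x y => ∃ h : H, x = h • v ∧ y = h • u
  have hP1 : ∀ h : H, P (h • v) (h • u) := fun h => ⟨h, rfl, rfl⟩
  have hP2 : ∀ h : H, ¬ P (h • u) (h • v) := by
    rintro h ⟨k, h1, h2⟩
    refine hns ⟨h⁻¹ * k, ?_, ?_⟩
    · rw [mul_smul, ← h1, inv_smul_smul]
    · rw [mul_smul, ← h2, inv_smul_smul]
  let hh : V → V → H := fun x y => if h : P x y then h.choose else 1
  have hh2 : ∀ h : H, hh (h • v) (h • u) = h := by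
    intro h
    have h0 := hP1 h
    have : h • v = hh (h • v) (h • u) • v ∧ h • u = hh (h • v) (h • u) • u := by
      simp only [hh, dif_pos h0]
      exact h0.choose_spec
    exact (huniq _ _ this.1 this.2).symm
  refine Dec.next (A := fun x y => P x y ∨ (∃ h : H, x = h • u ∧ y = h • v)) ?_
    (fun x y => if P x y then (hh x y * d) • v else (hh y x * γ (hh y x)) • u)
    (fun x y => if P x y then κe (hh x y) else κr (hh y x)) ?_ ?_ ?_ ?_
  · rintro x y (⟨h, rfl, rfl⟩ | ⟨h, rfl, rfl⟩)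
    · exact hAut h _ _ he
    · exact (hAut h _ _ he).symm
  · rintro x y (⟨h, rfl, rfl⟩ | ⟨h, rfl, rfl⟩)
    · simp only [if_pos (hP1 h), hh2]
      exact Or.inr ⟨h * d, by rw [mul_smul, hd], rfl⟩
    · simp only [if_neg (hP2 h), hh2]
      exact Or.inl ⟨h * γ h, by rw [mul_smul, hγ], rfl⟩
  · rintro x x' y (⟨h, rfl, rfl⟩ | ⟨h, rfl, rfl⟩) (⟨h', rfl, hy⟩ | ⟨h', rfl, hy⟩) hN
    · rw [hy] at hN
      rw [← hy, if_pos (hP1 h), hh2, hy, if_pos (hP1 h'), hh2] at hN
      have : h * d = h' * d := by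
        apply huniq _ _ hN
        rw [mul_smul, mul_smul, hd]; exact hy
      rw [mul_right_cancel this]
    · exfalso
      rw [if_pos (hP1 h), hh2, hy, if_neg (hP2 h'), hh2] at hN
      refine hP2 (h * d) ⟨h' * γ h', ?_, hN⟩
      rw [mul_smul, mul_smul, hd, hγ]; exact hy
    · exfalso
      rw [if_neg (hP2 h), hh2, hy, if_pos (hP1 h'), hh2] at hN
      refine hP2 (h' * d) ⟨h * γ h, ?_, hN.symm⟩
      rw [mul_smul, mul_smul, hd, hγ]; exact hy.symm
    · rw [if_neg (hP2 h), hh2, hy, if_neg (hP2 h'), hh2] at hN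
      have : h * γ h = h' * γ h' := by
        apply huniq _ _ _ hN
        rw [mul_smul, mul_smul, hγ, hγ]; exact hy
      rw [hγi _ _ this]
  · rintro x y (⟨h, rfl, rfl⟩ | ⟨h, rfl, rfl⟩)
    · simp only [if_pos (hP1 h), hh2]
      have h1 : h • u = (h * d) • u := by rw [mul_smul, hd]
      rw [h1, if_neg (hP2 (h * d)), hh2, hk1]
    · simp only [if_neg (hP2 h), hh2]
      have h1 : h • v = (h * γ h) • v := by rw [mul_smul, hγ]
      rw [h1, if_pos (hP1 (h * γ h)), hh2, hk2]
  · rintro x y (⟨h, rfl, rfl⟩ | ⟨h, rfl, rfl⟩) _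
    · rw [if_pos (hP1 h), if_neg (hP2 h), hh2]
      exact hk3 h
    · rw [if_pos (hP1 h), if_neg (hP2 h), hh2]
      exact (hk3 h).symm

/-- First case. -/
theorem pair_dec1 [Finite V] [Finite H]
    (hAut : ∀ (h : H) u v, G.Adj u v → G.Adj (h • u) (h • v))
    (hfree : ∀ (h : H) u v, G.Adj u v → h • u = u → h • v = v → h = 1)
    {v u : V} (he : G.Adj v u) (hns : ¬ ∃ τ : H, τ • v = u ∧ τ • u = v)
    (c d : H) (hc : c • v = v) (hd : d • u = u) (hz : d ∉ Subgroup.zpowers (d * c)) :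
    Dec G (fun x y => (∃ h : H, x = h • v ∧ y = h • u) ∨ (∃ h : H, x = h • u ∧ y = h • v)) := by
  refine pair_dec hAut hfree he hns d hd (fun _ => c) (fun _ => hc)
    (fun h h' e => mul_right_cancel e)
    (fun h => ((h : H) : H ⧸ Subgroup.zpowers (d * c)))
    (fun h => ((h * d⁻¹ : H) : H ⧸ Subgroup.zpowers (d * c))) ?_ ?_ ?_
  · intro h
    rw [mul_inv_cancel_right]
  · intro h
    rw [eq_comm, QuotientGroup.eq]
    refine ⟨1, ?_⟩
    simp only [zpow_one, mul_inv_rev, inv_inv]
    group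
  · intro h hk
    rw [QuotientGroup.eq, inv_mul_cancel_left] at hk
    exact hz ((Subgroup.inv_mem_iff _).1 hk)

/-- a proper colouring of a directed cycle -/
theorem colouring (q : ℕ) (hq : 2 ≤ q) : ∃ f : ZMod q → ℤ, ∀ j : ZMod q,
    f (j + 1) - f j ≠ 0 ∧ |f (j + 1) - f j| ≤ 2 := by
  have : NeZero q := ⟨by omega⟩
  have hF : Fact (1 < q) := ⟨by omega⟩
  refine ⟨fun j => if j.val = q - 1 then 2 else ((j.val % 2 : ℕ) : ℤ), ?_⟩
  intro j
  have hj := ZMod.val_lt j
  have h1 : (j + 1).val = (j.val + 1) % q := by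
    rw [ZMod.val_add, ZMod.val_one]
  simp only [h1]
  by_cases hlast : j.val = q - 1
  · have h2 : (j.val + 1) % q = 0 := by
      rw [hlast, Nat.sub_add_cancel (by omega), Nat.mod_self]
    rw [h2, if_neg (by omega), if_pos hlast]
    norm_num
  · have h2 : (j.val + 1) % q = j.val + 1 := Nat.mod_eq_of_lt (by omega)
    rw [h2, if_neg hlast]
    by_cases h3 : j.val + 1 = q - 1
    · rw [if_pos h3, abs_le]
      omega
    · rw [if_neg h3, abs_le]
      omega

/-- Second case: complete bipartite graphs. -/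
theorem pair_dec2 [Finite V] [Finite H]
    (hAut : ∀ (h : H) u v, G.Adj u v → G.Adj (h • u) (h • v))
    (hfree : ∀ (h : H) u v, G.Adj u v → h • u = u → h • v = v → h = 1)
    {v u : V} (he : G.Adj v u) (hns : ¬ ∃ τ : H, τ • v = u ∧ τ • u = v)
    (c d : H) (hc : c • v = v) (hd : d • u = u) (hcd : Commute d c)
    (hco : (orderOf d).Coprime (orderOf c)) (hd1 : d ≠ 1) (hc3 : 3 ≤ orderOf c) :
    Dec G (fun x y => (∃ h : H, x = h • v ∧ y = h • u) ∨ (∃ h : H, x = h • u ∧ y = h • v)) := by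
  have hq : 2 ≤ orderOf d := by
    have h0 : 0 < orderOf d := orderOf_pos d
    have h1 : orderOf d ≠ 1 := fun h => hd1 (orderOf_eq_one_iff.1 h)
    omega
  obtain ⟨f, hf⟩ := colouring (orderOf d) hq
  obtain ⟨ι, hι⟩ := count (d * c) (orderOf d) (by
    rw [hcd.orderOf_mul_eq_mul_orderOf_of_coprime hco]
    exact Nat.dvd_mul_right _ _)
  have hιk : ∀ (k : ℕ) (g : H), ι (g * (d * c) ^ k) = ι g + (k : ZMod (orderOf d)) := by
    intro k
    induction k with
    | zero => intro g; simp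
    | succ k ih =>
      intro g
      rw [pow_succ, ← mul_assoc, hι, ih]
      push_cast
      ring
  have hιq : ∀ g : H, ι (g * c ^ (orderOf d)) = ι g := by
    intro g
    have := hιk (orderOf d) g
    rw [hcd.mul_pow, pow_orderOf_eq_one, one_mul, ZMod.natCast_self, add_zero] at this
    exact this
  have hιc : ∀ g : H, ι (g * c) = ι g := by
    intro g
    obtain ⟨m, hm⟩ := exists_pow_eq_self_of_coprime hco
    have : ∀ (k : ℕ) (g : H), ι (g * (c ^ (orderOf d)) ^ k) = ι g := by
      intro k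
      induction k with
      | zero => intro g; simp
      | succ k ih =>
        intro g
        rw [pow_succ, ← mul_assoc, hιq, ih]
    have h2 := this m g
    rw [hm] at h2
    exact h2
  have hιd : ∀ g : H, ι (g * d) = ι g + 1 := by
    intro g
    rw [← hι g, ← mul_assoc, hιc]
  have hιcz : ∀ (k : ℤ) (g : H), ι (g * c ^ k) = ι g := by
    intro k
    induction k using Int.induction_on with
    | zero => intro g; simp
    | succ k ih =>
      intro g
      rw [zpow_add_one, ← mul_assoc, hιc, ih]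
    | pred k ih =>
      intro g
      have := hιc (g * c ^ (-(k : ℤ) - 1))
      rw [mul_assoc, ← zpow_add_one, sub_add_cancel, ih] at this
      exact this.symm
  have hcv : ∀ k : ℤ, (c ^ k) • v = v := by
    intro k
    have : c ∈ MulAction.stabilizer H v := hc
    exact (MulAction.stabilizer H v).zpow_mem this k
  have hdu : ∀ k : ℤ, (d ^ k) • u = u := by
    intro k
    have : d ∈ MulAction.stabilizer H u := hd
    exact (MulAction.stabilizer H u).zpow_mem this k
  have hcomm : ∀ k : ℤ, d * c ^ k = c ^ k * d := fun k => (hcd.zpow_right k)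
  refine pair_dec hAut hfree he hns d hd
    (fun h => c ^ (f (ι h) - f (ι h - 1))) (fun h => hcv _) ?_
    (fun h => ((h * c ^ (- f (ι h)) : H) : H ⧸ Subgroup.zpowers d))
    (fun h => ((h * c ^ (- f (ι h - 1)) : H) : H ⧸ Subgroup.zpowers d)) ?_ ?_ ?_
  · intro h h' e
    have h1 : ι h = ι h' := by
      rw [← hιcz (f (ι h) - f (ι h - 1)) h, e, hιcz]
    simp only [h1] at e
    exact mul_right_cancel e
  · intro h
    rw [hιd, add_sub_cancel_right, QuotientGroup.eq]
    refine ⟨-1, ?_⟩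
    have : h * d * c ^ (-f (ι h)) = h * c ^ (-f (ι h)) * d := by
      rw [mul_assoc, hcomm, mul_assoc]
    rw [this]
    simp only [zpow_neg, zpow_one, mul_inv_rev, inv_inv]
    group
  · intro h
    rw [hιcz, mul_assoc, ← zpow_add]
    congr 3
    ring
  · intro h hk
    rw [QuotientGroup.eq] at hk
    have h1 : (h * c ^ (-f (ι h)))⁻¹ * (h * c ^ (-f (ι h - 1))) =
        c ^ (f (ι h) - f (ι h - 1)) := by
      rw [mul_inv_rev, ← zpow_neg, neg_neg, mul_assoc, inv_mul_cancel_left, ← zpow_add]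
      congr 1
    rw [h1] at hk
    obtain ⟨k, hk⟩ := hk
    have hk' : d ^ k = c ^ (f (ι h) - f (ι h - 1)) := hk
    have h2 : c ^ (f (ι h) - f (ι h - 1)) = 1 :=
      hfree _ v u he (hcv _) (by rw [← hk']; exact hdu k)
    have h3 := orderOf_dvd_iff_zpow_eq_one.2 h2
    have h4 := hf (ι h - 1)
    rw [sub_add_cancel] at h4
    have h5 := Int.le_of_dvd (abs_pos.2 h4.1) ((dvd_abs _ _).2 h3)
    have h6 := h4.2
    omega

/-- An edge orbit between vertices with nontrivial stabilizers. -/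
theorem pair_dec3 [Finite V] [Finite H]
    (hAut : ∀ (h : H) u v, G.Adj u v → G.Adj (h • u) (h • v))
    (hfree : ∀ (h : H) u v, G.Adj u v → h • u = u → h • v = v → h = 1)
    {v u : V} (he : G.Adj v u)
    (c d : H) (hc : c • v = v) (hd : d • u = u) (hd1 : d ≠ 1) (hc1 : c ≠ 1) :
    Dec G (fun x y => (∃ h : H, x = h • v ∧ y = h • u) ∨ (∃ h : H, x = h • u ∧ y = h • v)) := by
  by_cases hns : ∃ τ : H, τ • v = u ∧ τ • u = v
  · obtain ⟨g, hg, hτ⟩ : ∃ g : H, g • v = u ∧
        ∀ τ : H, τ • v = u → τ • u = v → τ ∉ Subgroup.zpowers g :=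
      exists_g' hfree he hc1 hc hns
    obtain ⟨τ, h1, h2⟩ := hns
    refine (orbit_dec hAut hfree he g hg hτ).congr ?_
    intro x y
    constructor
    · exact Or.inl
    · rintro (h | ⟨h, rfl, rfl⟩)
      · exact h
      · exact ⟨h * τ, by rw [mul_smul, h1], by rw [mul_smul, h2]⟩
  · by_cases hz : d ∈ Subgroup.zpowers (d * c)
    · have hcd : Commute d c := Regular.comm_of_mem hz
      have hco : (orderOf d).Coprime (orderOf c) := by
        obtain ⟨k, hk⟩ := hz
        have hk' : (d * c) ^ k = d := hk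
        rw [hcd.mul_zpow] at hk'
        have h1 : c ^ k = d ^ (1 - k) := by
          rw [zpow_sub, zpow_one, eq_mul_inv_iff_mul_eq, ← (hcd.zpow_zpow k k).eq]
          exact hk'
        have hcv : (c ^ k) • v = v :=
          (MulAction.stabilizer H v).zpow_mem (show c ∈ MulAction.stabilizer H v from hc) k
        have hdu : (d ^ (1 - k)) • u = u :=
          (MulAction.stabilizer H u).zpow_mem (show d ∈ MulAction.stabilizer H u from hd) _
        have h2 : c ^ k = 1 := hfree _ v u he hcv (by rw [h1]; exact hdu)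
        have h3 : d ^ (1 - k) = 1 := by rw [← h1, h2]
        have h4 := orderOf_dvd_iff_zpow_eq_one.2 h2
        have h5 := orderOf_dvd_iff_zpow_eq_one.2 h3
        rw [Nat.coprime_iff_gcd_eq_one]
        have h6 : ((Nat.gcd (orderOf d) (orderOf c) : ℕ) : ℤ) ∣ 1 := by
          have h7 : ((Nat.gcd (orderOf d) (orderOf c) : ℕ) : ℤ) ∣ k :=
            dvd_trans (Int.natCast_dvd_natCast.2 (Nat.gcd_dvd_right _ _)) h4
          have h8 : ((Nat.gcd (orderOf d) (orderOf c) : ℕ) : ℤ) ∣ 1 - k :=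
            dvd_trans (Int.natCast_dvd_natCast.2 (Nat.gcd_dvd_left _ _)) h5
          have := dvd_add h7 h8
          rwa [add_sub_cancel] at this
        exact_mod_cast Int.eq_one_of_dvd_one (Int.natCast_nonneg _) h6
      by_cases hc3 : 3 ≤ orderOf c
      · exact pair_dec2 hAut hfree he hns c d hc hd hcd hco hd1 hc3
      · have hcpos : 0 < orderOf c := orderOf_pos c
        have hcne : orderOf c ≠ 1 := fun h => hc1 (orderOf_eq_one_iff.1 h)
        have hc2 : orderOf c = 2 := by omega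
        have hdpos : 0 < orderOf d := orderOf_pos d
        have hdne : orderOf d ≠ 1 := fun h => hd1 (orderOf_eq_one_iff.1 h)
        have hdne2 : orderOf d ≠ 2 := by
          intro h
          rw [hc2, h] at hco
          exact absurd hco (by decide)
        have hns' : ¬ ∃ τ : H, τ • u = v ∧ τ • v = u := by
          rintro ⟨τ, h1, h2⟩; exact hns ⟨τ, h2, h1⟩
        refine (pair_dec2 hAut hfree he.symm hns' d c hd hc hcd.symm hco.symm hc1
          (by omega)).congr ?_
        intro x y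
        exact or_comm
    · exact pair_dec1 hAut hfree he hns c d hc hd hz

/-- All vertex stabilizers are nontrivial. -/
theorem stab_dec' [Finite V] [Finite H] (hAut : ∀ (h : H) u v, G.Adj u v → G.Adj (h • u) (h • v))
    (hfree : ∀ (h : H) u v, G.Adj u v → h • u = u → h • v = v → h = 1)
    (hst : ∀ u v : V, G.Adj u v → ∃ c : H, c ≠ 1 ∧ c • u = u) : Dec G G.Adj := by
  classical
  let q : V × V → Quotient (MulAction.orbitRel H (V × V)) := fun p => Quotient.mk _ p
  have hq : ∀ p p' : V × V, q p = q p' ↔ ∃ h : H, h • p' = p := by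
    intro p p'
    constructor
    · intro h
      obtain ⟨k, hk⟩ := Quotient.exact h
      exact ⟨k, hk⟩
    · rintro ⟨h, rfl⟩
      exact Quotient.sound ⟨h, rfl⟩
  refine Dec.classes G.Adj (fun u v => s(q (u, v), q (v, u))) ?_
  intro i
  by_cases hex : ∃ v0 u0, G.Adj v0 u0 ∧ s(q (v0, u0), q (u0, v0)) = i
  · obtain ⟨v0, u0, he, hi⟩ := hex
    obtain ⟨c, hc1, hc⟩ := hst v0 u0 he
    obtain ⟨d, hd1, hd⟩ := hst u0 v0 he.symm
    refine (pair_dec3 hAut hfree he c d hc hd hd1 hc1).congr ?_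
    intro x y
    constructor
    · rintro (⟨h, rfl, rfl⟩ | ⟨h, rfl, rfl⟩)
      · refine ⟨hAut h _ _ he, ?_⟩
        rw [← hi]
        have h1 : q (h • v0, h • u0) = q (v0, u0) := (hq _ _).2 ⟨h, rfl⟩
        have h2 : q (h • u0, h • v0) = q (u0, v0) := (hq _ _).2 ⟨h, rfl⟩
        rw [h1, h2]
      · refine ⟨(hAut h _ _ he).symm, ?_⟩
        rw [← hi]
        have h1 : q (h • v0, h • u0) = q (v0, u0) := (hq _ _).2 ⟨h, rfl⟩
        have h2 : q (h • u0, h • v0) = q (u0, v0) := (hq _ _).2 ⟨h, rfl⟩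
        rw [h1, h2]
        exact Sym2.eq_swap
    · rintro ⟨_, h2⟩
      rw [← hi, Sym2.eq_iff] at h2
      rcases h2 with ⟨h2, _⟩ | ⟨h2, _⟩
      · obtain ⟨h, hh⟩ := (hq _ _).1 h2
        simp only [Prod.smul_mk, Prod.mk.injEq] at hh
        exact Or.inl ⟨h, hh.1.symm, hh.2.symm⟩
      · obtain ⟨h, hh⟩ := (hq _ _).1 h2
        simp only [Prod.smul_mk, Prod.mk.injEq] at hh
        exact Or.inr ⟨h, hh.1.symm, hh.2.symm⟩
  · refine Dec.empty ?_
    rintro u v ⟨h1, h2⟩
    exact hex ⟨u, v, h1, h2⟩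

end Pool.Agent.J4H91.OC
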