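import Pool.Agent.J4H91.OC.Orb

set_option autoImplicit false

/-!
Regular group actions (Cayley graphs).
-/

namespace Pool.Agent.J4H91.OC

open Finset

/-- A function that counts multiplications by `t` modulo a divisor of the order of `t`. -/
theorem count {H : Type} [Group H] (t : H) (N : ℕ) (ht : N ∣ orderOf t) :
    ∃ χ : H → ZMod N, ∀ g, χ (g * t) = χ g + 1 := by
  classical
  let q : H → H := fun g => ((g : H ⧸ Subgroup.zpowers t)).out
  have hq : ∀ g, ∃ k : ℤ, t ^ k = (q g)⁻¹ * g := by
    intro g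
    have : ((q g : H) : H ⧸ Subgroup.zpowers t) = (g : H ⧸ Subgroup.zpowers t) :=
      Quotient.out_eq _
    rw [QuotientGroup.eq] at this
    obtain ⟨k, hk⟩ := this
    exact ⟨k, hk⟩
  choose k hk using hq
  refine ⟨fun g => (k g : ZMod N), ?_⟩
  intro g
  have h1 : q (g * t) = q g := by
    have : ((g * t : H) : H ⧸ Subgroup.zpowers t) = (g : H ⧸ Subgroup.zpowers t) := by
      rw [eq_comm, QuotientGroup.eq]
      exact ⟨1, by simp⟩
    simp only [q, this]
  have h2 : t ^ (k (g * t)) = t ^ (k g + 1) := by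
    rw [hk, h1, zpow_add_one, hk, mul_assoc]
  have h3 : t ^ (k (g * t) - (k g + 1)) = 1 := by
    rw [zpow_sub, h2, mul_inv_cancel]
  have h4 : (orderOf t : ℤ) ∣ k (g * t) - (k g + 1) := orderOf_dvd_iff_zpow_eq_one.2 h3
  have h5 : (N : ℤ) ∣ k (g * t) - (k g + 1) :=
    dvd_trans (Int.natCast_dvd_natCast.2 ht) h4
  have h6 := (ZMod.intCast_zmod_eq_zero_iff_dvd (k (g * t) - (k g + 1)) N).2 h5
  push_cast at h6
  exact sub_eq_zero.1 h6

/-- A function that changes its value with `t` if `t` has even order. -/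
theorem parity {H : Type} [Group H] (t : H) (ht : 2 ∣ orderOf t) :
    ∃ χ : H → ZMod 2, ∀ g, χ (g * t) = χ g + 1 := count t 2 ht

/-- A regular action on the vertices of a graph. -/
structure Regular (V H : Type) (G : SimpleGraph V) [Group H] [MulAction H V] (v0 : V) where
  hAut : ∀ (h : H) u v, G.Adj u v → G.Adj (h • u) (h • v)
  free : ∀ h : H, h • v0 = v0 → h = 1
  φ : V → H
  hφ : ∀ v, φ v • v0 = v

variable {V H : Type} {G : SimpleGraph V} [Group H] [MulAction H V] {v0 : V}

namespace Regular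

lemma inj (R : Regular V H G v0) {g h : H} (e : g • v0 = h • v0) : g = h := by
  have := R.free (h⁻¹ * g) (by rw [mul_smul, e, inv_smul_smul])
  exact (inv_mul_eq_one.1 this).symm

lemma phi (R : Regular V H G v0) (g : H) : R.φ (g • v0) = g := R.inj (R.hφ _)

lemma phi_inj (R : Regular V H G v0) {u v : V} (h : R.φ u = R.φ v) : u = v := by
  rw [← R.hφ u, h, R.hφ]

/-- the type of an arc -/
def ty (R : Regular V H G v0) (x y : V) : H := (R.φ x)⁻¹ * R.φ y

lemma ty_eq (R : Regular V H G v0) {x y : V} {t : H} : R.ty x y = t ↔ R.φ y = R.φ x * t := by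
  unfold ty
  constructor
  · rintro rfl; rw [mul_inv_cancel_left]
  · intro h; rw [h, inv_mul_cancel_left]

lemma ty_mul (R : Regular V H G v0) (x : V) (t : H) : R.ty x ((R.φ x * t) • v0) = t := by
  rw [ty_eq, R.phi]

lemma ty_inv (R : Regular V H G v0) (x y : V) : R.ty y x = (R.ty x y)⁻¹ := by
  unfold ty; rw [mul_inv_rev, inv_inv]

/-- the connection set -/
def S (_ : Regular V H G v0) : Set H := {t | G.Adj v0 (t • v0)}

lemma adj_iff (R : Regular V H G v0) (x y : V) : G.Adj x y ↔ R.ty x y ∈ R.S := by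
  constructor
  · intro h
    have := R.hAut (R.φ x)⁻¹ x y h
    have h2 : (R.φ x)⁻¹ • x = v0 := by
      conv_lhs => rw [← R.hφ x]
      rw [R.phi, inv_smul_smul]
    have h3 : (R.φ x)⁻¹ • y = (R.ty x y) • v0 := by
      conv_lhs => rw [← R.hφ y]
      rw [ty, mul_smul]
    rw [h2, h3] at this
    exact this
  · intro h
    have := R.hAut (R.φ x) _ _ h
    rw [R.hφ, ← mul_smul, ty, mul_inv_cancel_left, R.hφ] at this
    exact this

lemma S_inv (R : Regular V H G v0) {t : H} (ht : t ∈ R.S) : t⁻¹ ∈ R.S := by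
  have := R.hAut t⁻¹ _ _ ht
  rw [inv_smul_smul] at this
  exact this.symm

lemma one_notMem (R : Regular V H G v0) : (1 : H) ∉ R.S := by
  intro h
  unfold S at h
  rw [Set.mem_setOf_eq, one_smul] at h
  exact G.irrefl h

/-- the arcs with type in `T` -/
def D (R : Regular V H G v0) (T : Set H) : Prop := Dec G (fun x y => R.ty x y ∈ T)

lemma D.union {R : Regular V H G v0} {T U : Set H} (hT : R.D T) (hU : R.D U)
    (h : ∀ t ∈ T, t ∉ U) : R.D (T ∪ U) :=
  (Dec.union hT hU (fun u v h1 => h _ h1)).congr (fun u v => by rw [Set.mem_union])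

lemma D.of_eq {R : Regular V H G v0} {T U : Set H} (hT : R.D T) (h : T = U) : R.D U := h ▸ hT

lemma D_empty (R : Regular V H G v0) : R.D ∅ := Dec.empty (by simp)

variable [Finite V] [Finite H]

/-- an element that is not an involution -/
lemma D_single (R : Regular V H G v0) {s : H} (hs : s ∈ R.S) (h2 : s * s ≠ 1) : R.D {s} := by
  have hfree : ∀ (h : H) u v, G.Adj u v → h • u = u → h • v = v → h = 1 := by
    intro h u v _ hu _
    have h1 : (h * R.φ u) • v0 = R.φ u • v0 := by
      rw [mul_smul, R.hφ, hu]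
    have := R.inj h1
    exact mul_eq_right.1 this
  refine (orbit_dec R.hAut hfree (v0 := v0) (u0 := s • v0) hs s rfl ?_).congr ?_
  · intro τ h1 h3 _
    have hτ : τ = s := R.inj h1
    rw [hτ, ← mul_smul] at h3
    exact h2 (R.free _ h3)
  · intro x y
    rw [Set.mem_singleton_iff, R.ty_eq]
    constructor
    · rintro ⟨h, rfl, rfl⟩
      rw [← mul_smul, R.phi, R.phi]
    · intro h
      refine ⟨R.φ x, (R.hφ x).symm, ?_⟩
      rw [← mul_smul, ← h, R.hφ]

/-- an involution and another element -/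
lemma D_pair (R : Regular V H G v0) {a s : H} (ha : a ∈ R.S) (hs : s ∈ R.S) (ha2 : a * a = 1)
    (hne : s ≠ a) (hz : a ∉ Subgroup.zpowers (a * s)) : R.D {a, s} := by
  classical
  have hai : a⁻¹ = a := inv_eq_of_mul_eq_one_left ha2
  have hmem : ∀ x y : V, R.ty x y ∈ ({a, s} : Set H) ↔ R.φ y = R.φ x * a ∨ R.φ y = R.φ x * s := by
    intro x y
    rw [Set.mem_insert_iff, Set.mem_singleton_iff, R.ty_eq, R.ty_eq]
  refine Dec.next (A := fun x y => R.ty x y ∈ ({a, s} : Set H)) ?_
    (fun x y => if R.ty x y = a then (R.φ y * s) • v0 else (R.φ y * a) • v0)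
    (fun x y => if R.ty x y = a then ((R.φ x : H) : H ⧸ Subgroup.zpowers (a * s)) else
      ((R.φ x * a : H) : H ⧸ Subgroup.zpowers (a * s))) ?_ ?_ ?_ ?_
  · intro u v h
    rw [R.adj_iff]
    rcases h with h | h
    · rw [h]; exact ha
    · rw [h]; exact hs
  · intro u v _
    by_cases h : R.ty u v = a
    · rw [if_pos h, R.ty_mul]; exact Or.inr rfl
    · rw [if_neg h, R.ty_mul]; exact Or.inl rfl
  · intro u u' v h h' hN
    by_cases h1 : R.ty u v = a
    · by_cases h2 : R.ty u' v = a
      · rw [R.ty_eq] at h1 h2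
        rw [h1] at h2
        exact R.phi_inj (mul_right_cancel h2)
      · rw [if_pos h1, if_neg h2] at hN
        exact absurd (mul_left_cancel (R.inj hN)) hne
    · by_cases h2 : R.ty u' v = a
      · rw [if_neg h1, if_pos h2] at hN
        exact absurd (mul_left_cancel (R.inj hN)).symm hne
      · have h3 : R.ty u v = s := h.resolve_left h1
        have h4 : R.ty u' v = s := h'.resolve_left h2
        rw [R.ty_eq] at h3 h4
        rw [h3] at h4
        exact R.phi_inj (mul_right_cancel h4)
  · intro u v h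
    by_cases h1 : R.ty u v = a
    · simp only [if_pos h1]
      rw [R.ty_mul, if_neg hne]
      rw [R.ty_eq] at h1
      rw [h1, mul_assoc, ha2, mul_one]
    · simp only [if_neg h1]
      rw [R.ty_mul, if_pos rfl]
      have h3 : R.ty u v = s := h.resolve_left h1
      rw [R.ty_eq] at h3
      rw [h3, eq_comm, QuotientGroup.eq]
      refine ⟨1, ?_⟩
      simp only [zpow_one, mul_inv_rev, hai]
      group
  · intro u v h h' hk
    have hinv := R.ty_inv u v
    rcases h with h | h
    · rw [h, hai] at hinv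
      rw [if_pos h, if_pos hinv] at hk
      rw [R.ty_eq] at h
      rw [h, QuotientGroup.eq, inv_mul_cancel_left] at hk
      exact hz hk
    · have h : R.ty u v = s := h
      rw [h] at hinv
      rcases h' with h' | h'
      · rw [h'] at hinv
        apply hne
        rw [← inv_inv s, ← hinv, hai]
      · have h' : R.ty v u = s := h'
        rw [if_neg (by rw [h]; exact hne), if_neg (by rw [h']; exact hne)] at hk
        rw [R.ty_eq] at h
        rw [h, QuotientGroup.eq] at hk
        apply hz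
        have h5 : (a * s)⁻¹ * ((R.φ u * a)⁻¹ * (R.φ u * s * a)) = a := by
          simp only [mul_inv_rev, hai]
          have : s⁻¹ * a * (a * (R.φ u)⁻¹ * (R.φ u * s * a)) =
            s⁻¹ * (a * a) * ((R.φ u)⁻¹ * R.φ u) * s * a := by group
          rw [this, ha2, inv_mul_cancel, mul_one, mul_one, inv_mul_cancel, one_mul]
        have h6 := Subgroup.mul_mem _ (Subgroup.inv_mem _ (Subgroup.mem_zpowers (a * s))) hk
        rw [h5] at h6
        exact h6

omit [Finite H] in
lemma comm_of_mem {a s : H} (hz : a ∈ Subgroup.zpowers (a * s)) : a * s = s * a := by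
  obtain ⟨k, hk⟩ := hz
  have h3 : (a * s) ^ k * (a * s) = (a * s) * (a * s) ^ k := by
    rw [← zpow_add_one, ← zpow_one_add, add_comm]
  have hk' : (a * s) ^ k = a := hk
  rw [hk', mul_assoc a s a] at h3
  exact mul_left_cancel h3

/-- two involutions -/
lemma D_inv2 (R : Regular V H G v0) {a b : H} (ha : a ∈ R.S) (hb : b ∈ R.S) (ha2 : a * a = 1)
    (hb2 : b * b = 1) (hne : a ≠ b) : R.D {a, b} := by
  refine R.D_pair ha hb ha2 hne.symm ?_
  intro hz
  have hc := comm_of_mem hz
  obtain ⟨k, hk⟩ := hz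
  have hk' : (a * b) ^ k = a := hk
  have hsq : (a * b) * (a * b) = 1 := by
    calc (a * b) * (a * b) = a * (b * a) * b := by group
      _ = a * (a * b) * b := by rw [hc]
      _ = (a * a) * (b * b) := by group
      _ = 1 := by rw [ha2, hb2, mul_one]
  have ha1 : a ≠ 1 := fun h => R.one_notMem (h ▸ ha)
  have hb1 : b ≠ 1 := fun h => R.one_notMem (h ▸ hb)
  rcases Int.even_or_odd k with ⟨m, hm⟩ | ⟨m, hm⟩
  · apply ha1
    rw [← hk', hm, ← two_mul, zpow_mul, zpow_two, hsq, one_zpow]
  · apply hb1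
    have h4 : (a * b) ^ k = a * b := by
      rw [hm, zpow_add, zpow_mul, zpow_two, hsq, one_zpow, one_mul, zpow_one]
    rw [hk'] at h4
    exact (mul_eq_left.1 h4.symm)

end Regular

end Pool.Agent.J4H91.OC
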